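import Pool.Agent.helper84.QI.Spec

/-!
# Project QI, row PRO: elements of prime order
-/

set_option autoImplicit false

namespace Pool.Agent.QI

theorem PRO_mul {H : Type} [Group H] (g h : H) (L : Subgroup H) : cj (g * h) L = cj g (cj h L) := by
  unfold cj
  rw [Subgroup.map_map]
  refine congrArg (fun φ => L.map φ) ?_
  ext x
  change g * h * x * (g * h)⁻¹ = g * (h * x * h⁻¹) * g⁻¹
  group

theorem PRO_one {H : Type} [Group H] (L : Subgroup H) : cj 1 L = L := by
  unfold cj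
  have h : (MulAut.conj (1 : H)).toMonoidHom = MonoidHom.id H := by
    ext x
    change 1 * x * 1⁻¹ = x
    group
  rw [h, Subgroup.map_id]

/-- the normaliser of `L` as the set of the `g` with `cj g L = L` -/
def PRO_St {H : Type} [Group H] (L : Subgroup H) : Subgroup H where
  carrier := {g | cj g L = L}
  mul_mem' := by
    intro g h hg hh
    have hg' : cj g L = L := hg
    have hh' : cj h L = L := hh
    change cj (g * h) L = L
    rw [PRO_mul, hh', hg']
  one_mem' := PRO_one L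
  inv_mem' := by
    intro g hg
    have hg' : cj g L = L := hg
    change cj g⁻¹ L = L
    have h : cj (g⁻¹ * g) L = L := by rw [inv_mul_cancel, PRO_one]
    rw [PRO_mul, hg'] at h
    exact h

theorem PRO_prime {H : Type} [Group H] (x : H) (p s : ℕ) (hp : p.Prime) (hx : x ^ p = 1) (hs : x ^ s ≠ 1)
    (K : Subgroup H) (h : x ^ s ∈ K) : x ∈ K := by
  have h1 : ¬ p ∣ s := by
    rintro ⟨t, rfl⟩
    exact hs (by rw [pow_mul, hx, one_pow])
  have h2 : Nat.Coprime s p := ((Nat.Prime.coprime_iff_not_dvd hp).mpr h1).symm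
  have h3 : ((1 : ℕ) : ℤ) = (s : ℤ) * Nat.gcdA s p + (p : ℤ) * Nat.gcdB s p := by
    have h4 := Nat.gcd_eq_gcd_ab s p
    rw [Nat.Coprime.gcd_eq_one h2] at h4
    exact h4
  have h4 : x = (x ^ s) ^ Nat.gcdA s p := by
    have h5 : x ^ ((1 : ℕ) : ℤ) = x := by rw [zpow_natCast, pow_one]
    calc x = x ^ ((1 : ℕ) : ℤ) := h5.symm
      _ = x ^ ((s : ℤ) * Nat.gcdA s p + (p : ℤ) * Nat.gcdB s p) := by rw [h3]
      _ = (x ^ s) ^ Nat.gcdA s p * (x ^ p) ^ Nat.gcdB s p := by
        rw [zpow_add, zpow_mul, zpow_mul, zpow_natCast, zpow_natCast]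
      _ = (x ^ s) ^ Nat.gcdA s p := by rw [hx, one_zpow, mul_one]
  rw [h4]
  exact K.zpow_mem h _

theorem PRO (hOLN : OLN_stmt) : PRO_stmt := by
  intro H _ S hS
  have h1 : ∀ x : H, ∀ p : ℕ, p.Prime → x ^ p = 1 →
      (Subgroup.centralizer ({x} : Set H) : Set H).Finite → ∀ L ∈ S, cj x L = L := by
    intro x p hp hx hc L hL
    obtain ⟨s, -, hs1, hs2⟩ := hOLN H S hS.fin hS.inf hS.com hS.ind hS.cnj x hc L hL
    exact PRO_prime x p s hp hx hs2 (PRO_St L) hs1
  refine ⟨h1, ?_⟩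
  intro a b hab p q hp hq ha hb hca hcb
  obtain ⟨L, hL⟩ := hS.ne
  have h2 : Subgroup.closure ({a, b} : Set H) ≤ PRO_St L := by
    rw [Subgroup.closure_le]
    rintro x (hx | hx)
    · rw [hx]
      exact h1 a p hp ha hca L hL
    · rw [Set.mem_singleton_iff.mp hx]
      exact h1 b q hq hb hcb L hL
  refine ⟨L, ?_⟩
  ext L'
  rw [Set.mem_singleton_iff]
  constructor
  · intro hL'
    obtain ⟨g, hg⟩ := hS.tra L hL L' hL'
    have h3 : g ∈ PRO_St L := h2 (by rw [hab]; exact Subgroup.mem_top g)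
    have h4 : cj g L = L := h3
    rw [← hg, h4]
  · intro h
    rw [h]
    exact hL

end Pool.Agent.QI
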